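import Mathlib

set_option autoImplicit false
set_option linter.unusedSectionVars false

/-!
# Trees with neighbor-locating chromatic number `k` have maximum degree at most `(k - 1)²`

Root the tree at a vertex `v` of colour `r`.  Let `U` be the set of children of `v` seeing at least
three colours, and `E₂` the set of the other vertices of colour `≠ r`, not adjacent to `v`, all of
whose children have colour `r` and whose parent has not.  Counting the leaves by their types gives
`deg v ≤ (k - 1)² + |E₂| - |U|`, and counting the types of the children of `v` gives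
`deg v ≤ (k - 1)² - |E₂| + |U|`.
-/

namespace Pool.Agent.Results.MP_16ddc9_co.MaxDegreeTrees

open Finset

/-- The set of colours appearing among the neighbours of `v`. -/
def nbrColours {V : Type} (G : SimpleGraph V) {k : ℕ} (c : V → Fin k) (v : V) : Set (Fin k) :=
  {i | ∃ u, G.Adj v u ∧ c u = i}

/-- `c` is a neighbor-locating `k`-colouring of `G`: a proper colouring all of whose `k` colour
classes are nonempty, in which distinct vertices of the same colour have different sets of colours
among their neighbours. -/
def IsNL {V : Type} (G : SimpleGraph V) {k : ℕ} (c : V → Fin k) : Prop :=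
  (∀ u v, G.Adj u v → c u ≠ c v) ∧ Function.Surjective c ∧
    ∀ u v, u ≠ v → c u = c v → nbrColours G c u ≠ nbrColours G c v

/-- The neighbor-locating chromatic number. -/
noncomputable def chiNL {V : Type} (G : SimpleGraph V) : ℕ :=
  sInf {k | ∃ c : V → Fin k, IsNL G c}

section Rooted

variable {V : Type} {G : SimpleGraph V} (hG : G.IsTree) (v : V)

/-- The path from `x` to the root. -/
noncomputable def pth (x : V) : G.Walk x v := (hG.existsUnique_path x v).choose

lemma pth_isPath (x : V) : (pth hG v x).IsPath := (hG.existsUnique_path x v).choose_spec.1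

lemma pth_unique (x : V) (p : G.Walk x v) (hp : p.IsPath) : p = pth hG v x :=
  (hG.existsUnique_path x v).choose_spec.2 p hp

/-- The parent of `x`. -/
noncomputable def par (x : V) : V := (pth hG v x).snd

lemma par_adj {x : V} (hx : x ≠ v) : G.Adj x (par hG v x) :=
  SimpleGraph.Walk.adj_snd (SimpleGraph.Walk.not_nil_of_ne hx)

lemma par_or {x y : V} (h : G.Adj x y) : par hG v x = y ∨ par hG v y = x := by
  by_cases hx : x ∈ (pth hG v y).support
  · right
    exact (hG.isAcyclic.eq_snd_of_adj_start (pth_isPath hG v y) h.symm hx).symm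
  · left
    have := pth_unique hG v x (SimpleGraph.Walk.cons h (pth hG v y))
      ((SimpleGraph.Walk.cons_isPath_iff _ _).mpr ⟨pth_isPath hG v y, hx⟩)
    unfold par
    rw [← this]
    simp

lemma length_par {x : V} (hx : x ≠ v) :
    (pth hG v (par hG v x)).length + 1 = (pth hG v x).length := by
  have h1 := pth_unique hG v (par hG v x) (pth hG v x).tail ((pth_isPath hG v x).tail)
  rw [← h1]
  exact SimpleGraph.Walk.length_tail_add_one (SimpleGraph.Walk.not_nil_of_ne hx)

lemma par_par_ne {x : V} (hx : x ≠ v) (hy : par hG v x ≠ v) : par hG v (par hG v x) ≠ x := by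
  intro h
  have h1 := length_par hG v hx
  have h2 := length_par hG v hy
  rw [h] at h2
  omega

lemma par_root : par hG v v = v := by
  have := pth_unique hG v v SimpleGraph.Walk.nil SimpleGraph.Walk.IsPath.nil
  unfold par
  rw [← this]
  simp

lemma adj_root {x : V} : G.Adj v x ↔ x ≠ v ∧ par hG v x = v := by
  constructor
  · intro h
    refine ⟨h.ne', ?_⟩
    rcases par_or hG v h with h1 | h1
    · rw [par_root] at h1; exact absurd h1 h.ne
    · exact h1
  · rintro ⟨h1, h2⟩
    have := par_adj hG v h1
    rw [h2] at this
    exact this.symm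

lemma adj_iff {z x : V} (hz : z ≠ v) :
    G.Adj z x ↔ x = par hG v z ∨ (x ≠ v ∧ par hG v x = z) := by
  constructor
  · intro h
    rcases par_or hG v h with h1 | h1
    · left; exact h1.symm
    · right
      refine ⟨?_, h1⟩
      rintro rfl
      rw [par_root] at h1
      exact hz h1.symm
  · rintro (rfl | ⟨h1, h2⟩)
    · exact par_adj hG v hz
    · have := par_adj hG v h1
      rw [h2] at this
      exact this.symm

end Rooted

set_option maxHeartbeats 1000000 in
theorem degree_le {V : Type} [Fintype V] {G : SimpleGraph V} (hG : G.IsTree) {k : ℕ}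
    (c : V → Fin k) (hc : IsNL G c) (v : V) [Fintype (G.neighborSet v)] :
    G.degree v ≤ (k - 1) ^ 2 := by
  classical
  obtain ⟨hprop, -, hnl⟩ := hc
  set P := par hG v with hP
  set r := c v with hr
  set X : Finset V := univ.erase v with hX
  set chl : V → Finset V := fun z => X.filter (fun x => P x = z) with hchl
  set S := nbrColours G c with hS
  have memX : ∀ x, x ∈ X ↔ x ≠ v := fun x => by simp [hX]
  have memchl : ∀ z x, x ∈ chl z ↔ x ≠ v ∧ P x = z := fun z x => by simp [hchl, hX]
  have hcP : ∀ x, x ≠ v → c x ≠ c (P x) := fun x hx => hprop _ _ (par_adj hG v hx)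
  have memS : ∀ z i, z ≠ v → (i ∈ S z ↔ i = c (P z) ∨ ∃ x ∈ chl z, c x = i) := by
    intro z i hz
    constructor
    · rintro ⟨u, hu, rfl⟩
      rcases (adj_iff hG v hz).mp hu with h | h
      · left; rw [h]
      · right; exact ⟨u, (memchl z u).mpr h, rfl⟩
    · rintro (h | ⟨x, hx, h⟩)
      · exact ⟨P z, par_adj hG v hz, h.symm⟩
      · exact ⟨x, (adj_iff hG v hz).mpr (Or.inr ((memchl z x).mp hx)), h⟩
  set Int := X.filter (fun z => (chl z).Nonempty) with hInt
  set Lf := X.filter (fun z => ¬ (chl z).Nonempty) with hLf
  have memInt : ∀ z, z ∈ Int ↔ z ≠ v ∧ (chl z).Nonempty := fun z => by simp [hInt, hX]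
  have memLf : ∀ z, z ∈ Lf ↔ z ≠ v ∧ chl z = ∅ := fun z => by
    simp [hLf, hX, Finset.not_nonempty_iff_eq_empty]
  have Sleaf : ∀ z ∈ Lf, S z = {c (P z)} := by
    intro z hz
    obtain ⟨h1, h2⟩ := (memLf z).mp hz
    ext i
    rw [memS z i h1, h2]
    simp
  set I1 := Int.filter (fun z => c z = r) with hI1
  set I2 := Int.filter (fun z => c z ≠ r) with hI2
  -- the size of the tree
  have e0 : Lf.card + I1.card + I2.card =
      (chl v).card + ∑ z ∈ I1, (chl z).card + ∑ z ∈ I2, (chl z).card := by
    have h1 : X.card = ∑ z, (chl z).card :=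
      Finset.card_eq_sum_card_fiberwise (fun x _ => Finset.mem_coe.mpr (mem_univ _))
    have h2 : Int.card + Lf.card = X.card := Finset.card_filter_add_card_filter_not _
    have h3 : I1.card + I2.card = Int.card := Finset.card_filter_add_card_filter_not _
    have h4 : ∑ z, (chl z).card = (chl v).card + ∑ z ∈ X, (chl z).card :=
      (Finset.add_sum_erase univ (fun z => (chl z).card) (mem_univ v)).symm
    have h5 : ∑ z ∈ Int, (chl z).card + ∑ z ∈ Lf, (chl z).card = ∑ z ∈ X, (chl z).card :=
      Finset.sum_filter_add_sum_filter_not _ _ _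
    have h6 : ∑ z ∈ I1, (chl z).card + ∑ z ∈ I2, (chl z).card = ∑ z ∈ Int, (chl z).card :=
      Finset.sum_filter_add_sum_filter_not _ _ _
    have h7 : ∑ z ∈ Lf, (chl z).card = 0 := by
      apply Finset.sum_eq_zero
      intro z hz
      rw [((memLf z).mp hz).2]; simp
    omega
  -- the leaves
  set La := Lf.filter (fun x => P x = v) with hLa
  set Lo := Lf.filter (fun x => c x ≠ r ∧ c (P x) ≠ r) with hLo
  set L1 := Lf.filter (fun x => P x ≠ v ∧ (c x = r ∨ c (P x) = r)) with hL1
  set YL := Lf.filter (fun x => c x = r) with hYL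
  have b1 : Lf.card ≤ La.card + L1.card + Lo.card := by
    have : Lf ⊆ La ∪ L1 ∪ Lo := by
      intro x hx
      simp only [hLa, hL1, hLo, mem_union, mem_filter]
      tauto
    exact (card_le_card this).trans ((card_union_le _ _).trans
      (Nat.add_le_add_right (card_union_le _ _) _))
  have hoff : ((univ.erase r).offDiag : Finset (Fin k × Fin k)).card =
      (k - 1) * (k - 1) - (k - 1) := by
    rw [offDiag_card, card_erase_of_mem (mem_univ _), card_univ, Fintype.card_fin]
  have b2 : Lo.card ≤ (k - 1) * (k - 1) - (k - 1) := by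
    rw [← hoff]
    apply card_le_card_of_injOn (fun x => (c x, c (P x)))
    · intro x hx
      rw [mem_coe, hLo, mem_filter] at hx
      have hxv := ((memLf x).mp hx.1).1
      simp only [coe_offDiag, Set.mem_offDiag, mem_coe, mem_erase, mem_univ, and_true]
      exact ⟨hx.2.1, hx.2.2, hcP x hxv⟩
    · intro x hx y hy hxy
      rw [mem_coe, hLo, mem_filter] at hx hy
      simp only [Prod.mk.injEq] at hxy
      by_contra hne
      apply hnl x y hne hxy.1
      have h1 := Sleaf x hx.1
      have h2 := Sleaf y hy.1
      rw [h1, h2, hxy.2]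
  have b3 : L1.card ≤ YL.card + ∑ y ∈ I1, (chl y).card := by
    have : L1 ⊆ YL ∪ I1.biUnion chl := by
      intro x hx
      rw [hL1, mem_filter] at hx
      obtain ⟨hxL, hPv, h⟩ := hx
      have hxv := ((memLf x).mp hxL).1
      rw [mem_union, mem_biUnion]
      rcases h with h | h
      · left; rw [hYL, mem_filter]; exact ⟨hxL, h⟩
      · right
        have hmem : x ∈ chl (P x) := (memchl _ _).mpr ⟨hxv, rfl⟩
        refine ⟨P x, ?_, hmem⟩
        rw [hI1, mem_filter]
        exact ⟨(memInt _).mpr ⟨hPv, ⟨x, hmem⟩⟩, h⟩
    exact (card_le_card this).trans ((card_union_le _ _).trans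
      (Nat.add_le_add_left card_biUnion_le _))
  -- the vertices coloured like `v`
  set Y := X.filter (fun x => c x = r) with hY
  have b4 : Y.card = YL.card + I1.card := by
    have h1 : Y = YL ∪ I1 := by
      ext x
      simp only [hY, hYL, hI1, hInt, hLf, mem_union, mem_filter]
      tauto
    have h2 : Disjoint YL I1 := by
      rw [Finset.disjoint_left]
      intro x h1 h2
      rw [hYL, mem_filter] at h1
      rw [hI1, mem_filter] at h2
      have e1 := ((memLf x).mp h1.1).2
      have e2 := ((memInt x).mp h2.1).2
      rw [e1] at e2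
      exact Finset.not_nonempty_empty e2
    rw [h1, card_union_of_disjoint h2]
  have b5 : Y.card ≤ ∑ z ∈ I2, ((chl z).filter (fun x => c x = r)).card := by
    have : Y ⊆ I2.biUnion (fun z => (chl z).filter (fun x => c x = r)) := by
      intro x hx
      rw [hY, mem_filter] at hx
      have hxv := (memX x).mp hx.1
      have hmem : x ∈ chl (P x) := (memchl _ _).mpr ⟨hxv, rfl⟩
      have h1 := hcP x hxv
      rw [hx.2] at h1
      rw [mem_biUnion]
      refine ⟨P x, ?_, mem_filter.mpr ⟨hmem, hx.2⟩⟩
      rw [hI2, mem_filter]
      refine ⟨(memInt _).mpr ⟨?_, ⟨x, hmem⟩⟩, h1.symm⟩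
      intro h
      exact h1 (by rw [h])
    exact (card_le_card this).trans card_biUnion_le
  -- types
  set U := I2.filter (fun z => P z = v ∧ ∃ d d', d ≠ d' ∧ d ≠ r ∧ d' ≠ r ∧ d ∈ S z ∧ d' ∈ S z)
    with hU
  set T1 := I2.filter (fun z => S z = {r}) with hT1
  set E2 := I2.filter (fun z => P z ≠ v ∧ ∃ d, d ≠ r ∧ S z = {r, d}) with hE2
  have b6 : ∀ z ∈ I2, ((chl z).filter (fun x => c x = r)).card +
      (if z ∈ U then 1 else 0) + 1 ≤ (chl z).card + (if z ∈ T1 then 1 else 0) +
        (if z ∈ E2 then 1 else 0) := by
    intro z hz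
    have hz' := hz
    rw [hI2, mem_filter] at hz'
    obtain ⟨hzI, hzr⟩ := hz'
    obtain ⟨hzv, hzne⟩ := (memInt z).mp hzI
    by_cases hall : ∀ x ∈ chl z, c x = r
    · -- all children are coloured `r`
      have h1 : (chl z).filter (fun x => c x = r) = chl z :=
        Finset.filter_true_of_mem hall
      obtain ⟨x₀, hx₀⟩ := hzne
      have hSz : ∀ i, i ∈ S z ↔ i = c (P z) ∨ i = r := by
        intro i
        rw [memS z i hzv]
        constructor
        · rintro (h | ⟨x, hx, h⟩)
          · left; exact h
          · right; rw [← h]; exact hall x hx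
        · rintro (h | h)
          · left; exact h
          · right; exact ⟨x₀, hx₀, by rw [h]; exact hall x₀ hx₀⟩
      have hUz : z ∉ U := by
        rw [hU, mem_filter]
        rintro ⟨-, hPz, d, d', hdd, hd, hd', h1, h2⟩
        rw [hSz] at h1 h2
        rw [hPz] at h1 h2
        rcases h1 with h | h <;> exact hd h
      rw [h1, if_neg hUz]
      by_cases hPr : c (P z) = r
      · have : z ∈ T1 := by
          rw [hT1, mem_filter]
          refine ⟨hz, ?_⟩
          ext i
          rw [hSz, hPr, or_self, Set.mem_singleton_iff]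
        rw [if_pos this]; omega
      · have : z ∈ E2 := by
          rw [hE2, mem_filter]
          refine ⟨hz, ?_, c (P z), hPr, ?_⟩
          · intro h; exact hPr (by rw [h])
          · ext i
            rw [hSz, Set.mem_insert_iff, Set.mem_singleton_iff, or_comm]
        rw [if_pos this]; omega
    · push Not at hall
      obtain ⟨x₁, hx₁, hcx₁⟩ := hall
      have hlt : ((chl z).filter (fun x => c x = r)).card + 1 ≤ (chl z).card := by
        have : (chl z).filter (fun x => c x = r) ⊆ (chl z).erase x₁ := by
          intro x hx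
          rw [mem_filter] at hx
          rw [mem_erase]
          exact ⟨fun h => hcx₁ (by rw [← h]; exact hx.2), hx.1⟩
        have := card_le_card this
        rw [card_erase_of_mem hx₁] at this
        have := card_pos.mpr ⟨x₁, hx₁⟩
        omega
      by_cases hUz : z ∈ U
      · have hUz' := hUz
        rw [hU, mem_filter] at hUz'
        obtain ⟨-, hPz, d, d', hdd, hd, hd', hdS, hdS'⟩ := hUz'
        rw [memS z _ hzv, hPz] at hdS hdS'
        obtain ⟨x, hx, hxd⟩ : ∃ x ∈ chl z, c x = d := by
          rcases hdS with h | h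
          · exact absurd h hd
          · exact h
        obtain ⟨x', hx', hxd'⟩ : ∃ x ∈ chl z, c x = d' := by
          rcases hdS' with h | h
          · exact absurd h hd'
          · exact h
        have hxx : x ≠ x' := by
          rintro rfl
          exact hdd (hxd.symm.trans hxd')
        have : (chl z).filter (fun x => c x = r) ⊆ ((chl z).erase x).erase x' := by
          intro y hy
          rw [mem_filter] at hy
          rw [mem_erase, mem_erase]
          refine ⟨?_, ?_, hy.1⟩
          · rintro rfl; exact hd' (hxd'.symm.trans hy.2)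
          · rintro rfl; exact hd (hxd.symm.trans hy.2)
        have h1 := card_le_card this
        rw [card_erase_of_mem (mem_erase.mpr ⟨hxx.symm, hx'⟩), card_erase_of_mem hx] at h1
        have h2 : 2 ≤ (chl z).card := by
          have : ({x, x'} : Finset V) ⊆ chl z := by
            intro y hy
            simp only [mem_insert, mem_singleton] at hy
            rcases hy with rfl | rfl <;> assumption
          have := card_le_card this
          rw [card_pair hxx] at this
          exact this
        rw [if_pos hUz]
        split_ifs <;> omega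
      · rw [if_neg hUz]
        split_ifs <;> omega
  have b7 : Y.card + U.card + I2.card ≤ ∑ z ∈ I2, (chl z).card + T1.card + E2.card := by
    have h1 : ∑ z ∈ I2, (if z ∈ U then 1 else 0) = U.card := by
      rw [← Finset.sum_filter, Finset.sum_const, smul_eq_mul, mul_one]
      congr 1
      ext z
      simp only [mem_filter, hU]
      tauto
    have h2 : ∑ z ∈ I2, (if z ∈ T1 then 1 else 0) = T1.card := by
      rw [← Finset.sum_filter, Finset.sum_const, smul_eq_mul, mul_one]
      congr 1
      ext z
      simp only [mem_filter, hT1]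
      tauto
    have h3 : ∑ z ∈ I2, (if z ∈ E2 then 1 else 0) = E2.card := by
      rw [← Finset.sum_filter, Finset.sum_const, smul_eq_mul, mul_one]
      congr 1
      ext z
      simp only [mem_filter, hE2]
      tauto
    have h4 := Finset.sum_le_sum b6
    simp only [Finset.sum_add_distrib] at h4
    rw [h1, h2, h3, Finset.sum_const, smul_eq_mul, mul_one] at h4
    omega
  -- vertices with `S = {r}`
  have inj1 : ∀ A : Finset V, (∀ x ∈ A, c x ≠ r ∧ S x = {r}) → A.card ≤ k - 1 := by
    intro A hA
    have : (univ.erase r : Finset (Fin k)).card = k - 1 := by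
      rw [card_erase_of_mem (mem_univ _), card_univ, Fintype.card_fin]
    rw [← this]
    apply card_le_card_of_injOn c
    · intro x hx
      rw [mem_coe, mem_erase]
      exact ⟨(hA x (mem_coe.mp hx)).1, mem_univ _⟩
    · intro x hx y hy hxy
      by_contra hne
      apply hnl x y hne hxy
      have h1 := (hA x (mem_coe.mp hx)).2
      have h2 := (hA y (mem_coe.mp hy)).2
      rw [h1, h2]
  have b8 : T1.card + La.card ≤ k - 1 := by
    have hd : Disjoint T1 La := by
      rw [Finset.disjoint_left]
      intro x h1 h2
      rw [hT1, mem_filter, hI2, mem_filter] at h1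
      rw [hLa, mem_filter] at h2
      have e1 := ((memInt x).mp h1.1.1).2
      have e2 := ((memLf x).mp h2.1).2
      rw [e2] at e1
      exact Finset.not_nonempty_empty e1
    rw [← card_union_of_disjoint hd]
    apply inj1
    intro x hx
    rcases mem_union.mp hx with hx | hx
    · rw [hT1, mem_filter, hI2, mem_filter] at hx
      exact ⟨hx.1.2, hx.2⟩
    · rw [hLa, mem_filter] at hx
      have hxv := ((memLf x).mp hx.1).1
      have h1 := hcP x hxv
      rw [hx.2] at h1
      refine ⟨h1, ?_⟩
      rw [Sleaf x hx.1, hx.2]
  -- the neighbours of `v`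
  set N1 := (chl v).filter (fun z => S z = {r}) with hN1
  set N2 := (chl v).filter (fun z => ∃ d, d ≠ r ∧ S z = {r, d}) with hN2
  have hchlv : ∀ z ∈ chl v, z ≠ v ∧ c z ≠ r ∧ r ∈ S z := by
    intro z hz
    obtain ⟨h1, h2⟩ := (memchl v z).mp hz
    refine ⟨h1, ?_, ?_⟩
    · have := hcP z h1
      rw [h2] at this
      exact this
    · rw [memS z r h1, h2]; left; rfl
  have b9 : (chl v).card ≤ N1.card + N2.card + U.card := by
    have : chl v ⊆ N1 ∪ N2 ∪ U := by
      intro z hz
      obtain ⟨hzv, hzr, hrS⟩ := hchlv z hz
      have hPz : P z = v := ((memchl v z).mp hz).2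
      simp only [mem_union]
      by_cases h1 : ∃ d, d ≠ r ∧ d ∈ S z
      · obtain ⟨d, hd, hdS⟩ := h1
        by_cases h2 : ∃ d', d' ≠ r ∧ d' ≠ d ∧ d' ∈ S z
        · obtain ⟨d', hd', hdd', hdS'⟩ := h2
          right
          rw [hU, mem_filter, hI2, mem_filter]
          refine ⟨⟨(memInt z).mpr ⟨hzv, ?_⟩, hzr⟩, hPz, d, d', hdd'.symm, hd, hd', hdS, hdS'⟩
          rcases (memS z d hzv).mp hdS with h | ⟨x, hx, -⟩
          · rw [hPz] at h; exact absurd h hd
          · exact ⟨x, hx⟩
        · push Not at h2
          left; right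
          rw [hN2, mem_filter]
          refine ⟨hz, d, hd, ?_⟩
          ext i
          simp only [Set.mem_insert_iff, Set.mem_singleton_iff]
          constructor
          · intro hi
            by_contra hcon
            push Not at hcon
            exact h2 i hcon.1 hcon.2 hi
          · rintro (rfl | rfl)
            · exact hrS
            · exact hdS
      · push Not at h1
        left; left
        rw [hN1, mem_filter]
        refine ⟨hz, ?_⟩
        ext i
        simp only [Set.mem_singleton_iff]
        constructor
        · intro hi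
          by_contra hcon
          exact h1 i hcon hi
        · rintro rfl
          exact hrS
    exact (card_le_card this).trans ((card_union_le _ _).trans
      (Nat.add_le_add_right (card_union_le _ _) _))
  have b10 : N1.card ≤ k - 1 := by
    apply inj1
    intro z hz
    rw [hN1, mem_filter] at hz
    exact ⟨(hchlv z hz.1).2.1, hz.2⟩
  have b11 : N2.card + E2.card ≤ (k - 1) * (k - 1) - (k - 1) := by
    have hd : Disjoint N2 E2 := by
      rw [Finset.disjoint_left]
      intro x h1 h2
      rw [hN2, mem_filter] at h1
      rw [hE2, mem_filter] at h2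
      exact h2.2.1 ((memchl v x).mp h1.1).2
    rw [← card_union_of_disjoint hd, ← hoff]
    have hA : ∀ x ∈ N2 ∪ E2, x ≠ v ∧ c x ≠ r ∧ ∃ d, d ≠ r ∧ S x = {r, d} := by
      intro x hx
      rcases mem_union.mp hx with hx | hx
      · rw [hN2, mem_filter] at hx
        exact ⟨(hchlv x hx.1).1, (hchlv x hx.1).2.1, hx.2⟩
      · rw [hE2, mem_filter, hI2, mem_filter] at hx
        exact ⟨((memInt x).mp hx.1.1).1, hx.1.2, hx.2.2⟩
    have hex : ∀ x, ∃ d, x ∈ N2 ∪ E2 → d ≠ r ∧ S x = {r, d} := by
      intro x
      by_cases hx : x ∈ N2 ∪ E2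
      · obtain ⟨-, -, d, hd⟩ := hA x hx
        exact ⟨d, fun _ => hd⟩
      · exact ⟨r, fun h => absurd h hx⟩
    choose dd hdd using hex
    apply card_le_card_of_injOn (fun x => (c x, dd x))
    · intro x hx
      have hx' := mem_coe.mp hx
      obtain ⟨h1, h2, -⟩ := hA x hx'
      obtain ⟨h3, h4⟩ := hdd x hx'
      simp only [coe_offDiag, Set.mem_offDiag, mem_coe, mem_erase, mem_univ, and_true]
      refine ⟨h2, h3, ?_⟩
      intro h
      have : dd x ∈ S x := by rw [h4]; simp
      obtain ⟨u, hu, hu'⟩ := this
      exact hprop _ _ hu (h.trans hu'.symm)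
    · intro x hx y hy hxy
      simp only [Prod.mk.injEq] at hxy
      by_contra hne
      apply hnl x y hne hxy.1
      have h1 := (hdd x (mem_coe.mp hx)).2
      have h2 := (hdd y (mem_coe.mp hy)).2
      rw [h1, h2, hxy.2]
  -- the degree of `v`
  have hdeg : G.degree v = (chl v).card := by
    rw [← SimpleGraph.card_neighborFinset_eq_degree]
    congr 1
    ext x
    rw [SimpleGraph.mem_neighborFinset, memchl, adj_root hG v]
  rw [hdeg]
  have hk : 1 ≤ k := by have := r.2; omega
  have hsq : (k - 1) ^ 2 = (k - 1) * (k - 1) := sq _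
  have hle : k - 1 ≤ (k - 1) * (k - 1) := Nat.le_mul_self _
  rw [hsq]
  generalize (k - 1) * (k - 1) = m at *
  omega

/-- The neighbor-locating chromatic number is attained. -/
lemma chiNL_spec {V : Type} [Fintype V] (G : SimpleGraph V) :
    ∃ c : V → Fin (chiNL G), IsNL G c := by
  have hne : {k | ∃ c : V → Fin k, IsNL G c}.Nonempty := by
    refine ⟨Fintype.card V, Fintype.equivFin V, ?_, (Fintype.equivFin V).surjective, ?_⟩
    · intro u v h heq
      exact h.ne ((Fintype.equivFin V).injective heq)
    · intro u v h heq
      exact absurd ((Fintype.equivFin V).injective heq) h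
  exact Nat.sInf_mem hne

/-- **Main result.** A tree with neighbor-locating chromatic number `k` has maximum degree at most
`(k - 1)²`. -/
theorem result : ∀ (V : Type) [Fintype V] [Nontrivial V] (G : SimpleGraph V) [DecidableRel G.Adj]
    (k : ℕ), G.IsTree → chiNL G = k → G.maxDegree ≤ (k - 1) ^ 2 := by
  intro V _ _ G _ k hG hk
  subst hk
  obtain ⟨c, hc⟩ := chiNL_spec G
  apply SimpleGraph.maxDegree_le_of_forall_degree_le
  intro v
  exact degree_le hG c hc v

end Pool.Agent.Results.MP_16ddc9_co.MaxDegreeTrees
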